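import Pool.Agent.Y993.HP.Stm

/-!
# Project HP: first moment bound for chains (S_FM)
-/

set_option autoImplicit false

namespace Pool.Agent.Y401.HP

open Finset Pool.Agent.Y993.HP

/-- strictly monotone maps into `W` -/
theorem card_strictMono (b N : ℕ) (W : Finset (Fin N)) (S : Finset (Fin b → Fin N))
    (hS : ∀ w ∈ S, StrictMono w ∧ ∀ a, w a ∈ W) : S.card ≤ W.card.choose b := by
  classical
  rw [← card_powersetCard]
  apply card_le_card_of_injOn (fun w => univ.image w)
  · intro w hw
    obtain ⟨h1, h2⟩ := hS w hw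
    rw [mem_coe, mem_powersetCard]
    refine ⟨?_, ?_⟩
    · intro x hx
      obtain ⟨a, -, rfl⟩ := mem_image.1 hx
      exact h2 a
    · rw [card_image_of_injective _ h1.injective, card_univ, Fintype.card_fin]
  · intro w hw w' hw' h
    have h1 := (hS w hw).1
    have h2 := (hS w' hw').1
    apply (StrictMono.range_inj h1 h2).1
    have h3 := congrArg (fun s : Finset (Fin N) => (s : Set (Fin N))) h
    simpa using h3

/-- one direction -/
theorem card_dir (b n N : ℕ) (hN : 0 < N) (g : Fin b → Fin n) (W : Finset (Fin N))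
    (T : Finset (Fin n → Fin N)) (hT : ∀ v ∈ T, StrictMono (fun a => v (g a)) ∧ ∀ a, v (g a) ∈ W) :
    (T.card : ℝ) ≤ (N : ℝ) ^ n * ((W.card : ℝ) / N) ^ b / (b.factorial : ℝ) := by
  classical
  have hN0 : (0 : ℝ) < N := by exact_mod_cast hN
  have hfac : (0 : ℝ) < b.factorial := by exact_mod_cast b.factorial_pos
  by_cases hg : Function.Injective g
  · have hbn : b ≤ n := by
      have := Fintype.card_le_of_injective g hg
      simpa using this
    set S : Finset (Fin b → Fin N) := T.image (fun v a => v (g a)) with hSdef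
    have hS : S.card ≤ W.card.choose b := by
      apply card_strictMono
      intro w hw
      obtain ⟨v, hv, rfl⟩ := mem_image.1 hw
      exact hT v hv
    have hcompl : Fintype.card {x : Fin n // x ∉ Set.range g} = n - b := by
      have h1 : Fintype.card {x : Fin n // x ∈ Set.range g} = b := by
        have := Set.card_range_of_injective hg
        rw [Fintype.card_fin] at this
        convert this
      have h2 := Fintype.card_subtype_compl (fun x : Fin n => x ∈ Set.range g)
      rw [Fintype.card_fin, h1] at h2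
      convert h2
    have hcard : T.card ≤ S.card * N ^ (n - b) := by
      have e : S.card * N ^ (n - b) =
          (S ×ˢ (univ : Finset ({x : Fin n // x ∉ Set.range g} → Fin N))).card := by
        rw [card_product, card_univ, Fintype.card_fun, Fintype.card_fin, hcompl]
      rw [e]
      apply card_le_card_of_injOn (fun v => ((fun a => v (g a)), fun x => v x.1))
      · intro v hv
        rw [mem_coe, mem_product]
        exact ⟨mem_image_of_mem _ hv, mem_univ _⟩
      · intro v _ v' _ h
        obtain ⟨h1, h2⟩ := Prod.mk.inj h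
        funext x
        by_cases hx : x ∈ Set.range g
        · obtain ⟨a, rfl⟩ := hx
          exact congrFun h1 a
        · exact congrFun h2 ⟨x, hx⟩
    have h3 : (T.card : ℝ) ≤ (W.card.choose b : ℝ) * (N : ℝ) ^ (n - b) := by
      have := hcard.trans (Nat.mul_le_mul_right _ hS)
      exact_mod_cast this
    have h4 : (W.card.choose b : ℝ) ≤ (W.card : ℝ) ^ b / (b.factorial : ℝ) := Nat.choose_le_pow_div b W.card
    have h5 : (N : ℝ) ^ n = (N : ℝ) ^ (n - b) * (N : ℝ) ^ b := by
      rw [← pow_add]; congr 1; omega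
    calc (T.card : ℝ) ≤ (W.card.choose b : ℝ) * (N : ℝ) ^ (n - b) := h3
      _ ≤ ((W.card : ℝ) ^ b / (b.factorial : ℝ)) * (N : ℝ) ^ (n - b) :=
          mul_le_mul_of_nonneg_right h4 (by positivity)
      _ = (N : ℝ) ^ n * ((W.card : ℝ) / N) ^ b / (b.factorial : ℝ) := by
          rw [h5, div_pow]
          field_simp
  · have : T = ∅ := by
      rw [eq_empty_iff_forall_notMem]
      intro v hv
      apply hg
      intro a a' haa
      apply (hT v hv).1.injective
      show v (g a) = v (g a')
      rw [haa]
    rw [this]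
    simp only [card_empty, Nat.cast_zero]
    positivity

/-- all directions -/
theorem card_all (d n N b : ℕ) (hN : 0 < N) (i0 : Fin d) (U : Finset (Fin N)) (f : Fin b → Pt d n)
    (T : Finset (Lab d n N)) (hT : ∀ u ∈ T, (∀ i, StrictMono (fun a => u (i, f a i))) ∧
      ∀ a, u (i0, f a i0) ∈ U) :
    (T.card : ℝ) ≤ (N : ℝ) ^ (d * n) * (((U.card : ℝ) / N) ^ b / (b.factorial : ℝ) ^ d) := by
  classical
  have hN0 : (0 : ℝ) < N := by exact_mod_cast hN
  let W : Fin d → Finset (Fin N) := fun i => if i = i0 then U else univ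
  let D : Fin d → Finset (Fin n → Fin N) := fun i =>
    univ.filter (fun v => StrictMono (fun a => v (f a i)) ∧ ∀ a, v (f a i) ∈ W i)
  have h1 : T.card ≤ (Fintype.piFinset D).card := by
    apply card_le_card_of_injOn (fun u i x => u (i, x))
    · intro u hu
      rw [mem_coe, Fintype.mem_piFinset]
      intro i
      rw [mem_filter]
      refine ⟨mem_univ _, (hT u hu).1 i, fun a => ?_⟩
      show u (i, f a i) ∈ (if i = i0 then U else univ)
      split_ifs with hi
      · subst hi; exact (hT u hu).2 a
      · exact mem_univ _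
    · intro u _ u' _ h
      funext ⟨i, x⟩
      exact congrFun (congrFun h i) x
  rw [Fintype.card_piFinset] at h1
  have h2 : ∀ i, ((D i).card : ℝ) ≤ (N : ℝ) ^ n * (((W i).card : ℝ) / N) ^ b / (b.factorial : ℝ) := by
    intro i
    apply card_dir b n N hN (fun a => f a i) (W i)
    intro v hv
    exact (mem_filter.1 hv).2
  calc (T.card : ℝ) ≤ ∏ i, ((D i).card : ℝ) := by exact_mod_cast h1
    _ ≤ ∏ i, ((N : ℝ) ^ n * (((W i).card : ℝ) / N) ^ b / (b.factorial : ℝ)) :=
        Finset.prod_le_prod (fun i _ => Nat.cast_nonneg _) (fun i _ => h2 i)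
    _ = (N : ℝ) ^ (d * n) * (((U.card : ℝ) / N) ^ b / (b.factorial : ℝ) ^ d) := by
        have e : ∏ i, (((W i).card : ℝ) / N) ^ b = ((U.card : ℝ) / N) ^ b := by
          rw [Finset.prod_eq_single i0]
          · simp [W]
          · intro i _ hi
            simp only [W, if_neg hi, card_univ, Fintype.card_fin]
            rw [div_self hN0.ne', one_pow]
          · intro h; exact absurd (mem_univ _) h
        rw [Finset.prod_div_distrib, Finset.prod_mul_distrib, e]
        simp only [prod_const, card_univ, Fintype.card_fin]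
        rw [← pow_mul, mul_comm n d]
        ring

/-- enumeration of a chain -/
theorem enum_chain (d n N b : ℕ) (A : Finset (Pt d n)) (i0 : Fin d) (U : Finset (Fin N))
    (u : Lab d n N) (C : Finset (Pt d n)) (hCA : C ⊆ A) (hcard : C.card = b) (hch : IsCh u C)
    (hU : ∀ p ∈ C, u (i0, p i0) ∈ U) :
    ∃ f : Fin b → Pt d n, (∀ a, f a ∈ A) ∧ (∀ i, StrictMono (fun a => u (i, f a i))) ∧
      ∀ a, u (i0, f a i0) ∈ U := by
  classical
  have hinj : Set.InjOn (fun p : Pt d n => u (i0, p i0)) (C : Set (Pt d n)) := by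
    intro p hp q hq hpq
    by_contra hne
    rcases hch p hp q hq hne with h | h
    · exact absurd hpq (h i0).ne
    · exact absurd hpq (h i0).ne'
  have hcard' : (C.image (fun p => u (i0, p i0))).card = b := by
    rw [card_image_of_injOn hinj, hcard]
  have hex : ∀ a : Fin b, ∃ p ∈ C, u (i0, p i0) =
      (C.image (fun p => u (i0, p i0))).orderEmbOfFin hcard' a := by
    intro a
    have h1 := Finset.orderEmbOfFin_mem (C.image (fun p => u (i0, p i0))) hcard' a
    obtain ⟨p, hp, hp2⟩ := mem_image.1 h1
    exact ⟨p, hp, hp2⟩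
  choose f hfC hf using hex
  refine ⟨f, fun a => hCA (hfC a), fun i => ?_, fun a => hU _ (hfC a)⟩
  intro a a' haa
  have h1 : u (i0, f a i0) < u (i0, f a' i0) := by
    rw [hf, hf]
    exact (OrderEmbedding.strictMono _) haa
  have hne : f a ≠ f a' := by
    intro h; rw [h] at h1; exact lt_irrefl _ h1
  rcases hch (f a) (hfC a) (f a') (hfC a') hne with h | h
  · exact h i
  · exact absurd h1 (not_lt.2 (h i0).le)

theorem fm1 : S_FM := by
  classical
  intro d n N b A i0 U hN
  have hN0 : (0 : ℝ) < N := by exact_mod_cast hN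
  set E : Lab d n N → Prop := fun u => ∃ C ⊆ A, C.card = b ∧ IsCh u C ∧ ∀ p ∈ C, u (i0, p i0) ∈ U
    with hE
  have hPr : Pr E = ((univ.filter E).card : ℝ) / (N : ℝ) ^ (d * n) := by
    unfold Pr Ex
    congr 1
    · have e : ∀ u : Lab d n N, (if E u then (1 : ℝ) else 0) = if u ∈ univ.filter E then 1 else 0 := by
        intro u
        by_cases hu : E u
        · rw [if_pos hu, if_pos (mem_filter.2 ⟨mem_univ _, hu⟩)]
        · rw [if_neg hu, if_neg (fun h => hu (mem_filter.1 h).2)]
      have e2 : (∑ u : Lab d n N, if E u then (1 : ℝ) else 0) = ∑ u : Lab d n N,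
          if u ∈ univ.filter E then (1 : ℝ) else 0 := Finset.sum_congr rfl fun u _ => by
        rw [← e u]
      refine Eq.trans ?_ (e2.trans ?_)
      · refine Finset.sum_congr rfl fun u _ => ?_
        by_cases hu : E u
        · simp [hu]
        · simp [hu]
      · rw [Finset.sum_ite_mem, univ_inter, Finset.sum_const, nsmul_eq_mul, mul_one]
    · rw [Fintype.card_fun, Fintype.card_prod, Fintype.card_fin, Fintype.card_fin,
        Fintype.card_fin]
      push_cast; rfl
  rw [hPr, div_le_iff₀ (by positivity)]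
  let F : (Fin b → Pt d n) → Finset (Lab d n N) := fun f =>
    univ.filter (fun u => (∀ i, StrictMono (fun a => u (i, f a i))) ∧ ∀ a, u (i0, f a i0) ∈ U)
  have h1 : univ.filter E ⊆ (Fintype.piFinset (fun _ : Fin b => A)).biUnion F := by
    intro u hu
    obtain ⟨C, hCA, hcard, hch, hU⟩ := (mem_filter.1 hu).2
    obtain ⟨f, hfA, hf1, hf2⟩ := enum_chain d n N b A i0 U u C hCA hcard hch hU
    rw [mem_biUnion]
    exact ⟨f, Fintype.mem_piFinset.2 hfA, mem_filter.2 ⟨mem_univ _, hf1, hf2⟩⟩
  have h2 : ((univ.filter E).card : ℝ) ≤ ∑ f ∈ Fintype.piFinset (fun _ : Fin b => A), ((F f).card : ℝ) := by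
    have := (card_le_card h1).trans card_biUnion_le
    exact_mod_cast this
  have h3 : ∀ f ∈ Fintype.piFinset (fun _ : Fin b => A), ((F f).card : ℝ) ≤
      (N : ℝ) ^ (d * n) * (((U.card : ℝ) / N) ^ b / (b.factorial : ℝ) ^ d) := by
    intro f _
    exact card_all d n N b hN i0 U f (F f) (fun u hu => (mem_filter.1 hu).2)
  refine h2.trans ((Finset.sum_le_sum h3).trans (le_of_eq ?_))
  rw [Finset.sum_const, Fintype.card_piFinset, nsmul_eq_mul]
  simp only [prod_const, card_univ, Fintype.card_fin]
  push_cast
  ring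

end Pool.Agent.Y401.HP

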